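import Pool.Agent.TH152.CV.Hyp

/-!
MP_6f117a_ag, Q1: the equivalence of algebraic notions of hyperbolicity, for abelian covers of
projective space.
-/

set_option autoImplicit false

namespace Pool.Agent.Results.MP_6f117a_ag.AbelianCovers

open Pool.Agent.W602.Cov Pool.Agent.W602.Cov.Cover Pool.Agent.TH152.CV

/-- For all `n` and `q` there is a constant `R` with the following property. Let `X` be an abelian
cover of projective `n`-space, with the equations `y k ^ m k = ∏ i, ℓ i (x) ^ e k i` in a weighted
projective space, where `ℓ 1, …, ℓ q` are any linear forms and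
`n (n + 1) (n + 2) ∑ i, e k i < 2 m k` for all `k`. The following are equivalent: `X` is
algebraically hyperbolic, with the constant `R`; the degrees of the morphisms from any given curve
to `X` are bounded; there is no nonconstant morphism from the multiplicative group to `X`; there is
no nonconstant morphism from the affine line to `X`; all subvarieties of `X` of positive dimension
are of general type; `X` has no split point. -/
theorem result (n q : ℕ) : ∃ R : ℕ, 0 < R ∧ ∀ {r : ℕ} {X : Cover n q r}, Big X → X.Free →
    [AlgHyp R X, BddCurves X, ∀ P Q, ¬ X.GmCurve P Q, ∀ P Q, ¬ RatCurve X P Q, AllGT X,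
      ∀ v, ¬ X.Split v].TFAE := by
  obtain ⟨R, hR, h⟩ := hyperbolic_tfae n q
  refine ⟨R, hR, fun {r X} hB hF => ?_⟩
  have ht := h hB hF
  tfae_have 1 ↔ 2 := ht.out 1 2
  tfae_have 1 ↔ 3 := ht.out 1 3
  tfae_have 1 ↔ 4 := ht.out 1 4
  tfae_have 1 ↔ 5 := ht.out 1 5
  tfae_have 1 ↔ 6 := ht.out 1 0
  tfae_finish

end Pool.Agent.Results.MP_6f117a_ag.AbelianCovers
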