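import Pool.Agent.TH138.CG.C5

set_option autoImplicit false

/-!
# Families of points and of rational maps generated by grammars

Let `k` be an algebraically closed field of characteristic zero, and let `X` be the closed subset of
projective `n`-space over `k` given by the forms in `FF`.  Let `E` be a field that contains `k`, for
instance the function field of a variety `Y` over `k`; the `E`-points of `X` are then the rational
maps from `Y` to `X`.  Given invertible `r × r` matrices `ρ(a)` over `E` for the letters `a` of a
finite alphabet, a matrix `M` with `n + 1` rows and `r` columns and a vector `v` over `E`, the word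
`a₁ ⋯ a_m` represents the vector `M ρ(a₁) ⋯ ρ(a_m) v`.  `FamiliesFinite FF E` says: if all words of
a context-free language represent `E`-points of `X` (or the zero vector), then they represent
finitely many points.

(1) `X` contains no rational curve if and only if this holds for `E = k`, and if and only if it
holds for all fields `E ⊇ k`.

(2) In general, let a context-free language be given all words of which represent points of `X` over
`k` (or the zero vector). There are finitely many unirational closed subvarieties of `X` of positive
dimension, the closures of the images of polynomial maps `P j`, such that all but finitely many of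
the points lie on one of them.
-/

namespace Pool.Agent.Results.MP_6f117a_ag.GrammarFamilies

open MvPolynomial Pool.Agent.TH717.GO Pool.Agent.TH138.UD Pool.Agent.TH138.CG

theorem result (k : Type) [Field k] [IsAlgClosed k] [CharZero k] (n : ℕ)
    (FF : Set (MvPolynomial (Fin (n + 1)) k)) (hhom : ∀ F ∈ FF, ∃ e, F.IsHomogeneous e) :
    ((NoRat FF ↔ FamiliesFinite FF k) ∧
      (NoRat FF ↔ ∀ (E : Type) [Field E] [Algebra k E], FamiliesFinite FF E)) ∧
    (∀ (r : ℕ) (A : Type) [Finite A] (ρ : A → Matrix.GeneralLinearGroup (Fin r) k)
      (M : Matrix (Fin (n + 1)) (Fin r) k) (v : Fin r → k) (g : ContextFreeGrammar A),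
      (∀ x ∈ wordVecs M ρ v g.language, ∀ F ∈ FF, eval x F = 0) →
      ∃ (N : ℕ) (s : Fin N → ℕ) (P : (j : Fin N) → Fin (n + 1) → MvPolynomial (Fin (s j)) k),
        (∀ j, Param FF (P j)) ∧
          (projPts {x ∈ wordVecs M ρ v g.language | ∀ j, ¬ OnImage (P j) x}).Finite) := by
  have h1 : FamiliesFinite FF k → NoRat FF := fun h =>
    (noRat_iff FF hhom).2 fun r A _ ρ M v g hX => h r A ρ M v g hX
  refine ⟨⟨⟨fun h => familiesFinite_of_noRat FF hhom h k, h1⟩,
    ⟨fun h E _ _ => familiesFinite_of_noRat FF hhom h E, fun h => h1 (h k)⟩⟩, ?_⟩
  intro r A _ ρ M v g hX
  exact special FF hhom ρ M v g hX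

end Pool.Agent.Results.MP_6f117a_ag.GrammarFamilies
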