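import Mathlib
import Pool.Agent.TH710.NU.Four

/-!
The four notions of hyperbolicity for projective varieties given by nested sums of few high powers
of linear forms.
-/

set_option autoImplicit false

namespace Pool.Agent.Results.MP_6f117a_ag.NestedFour

open Pool.Agent.W603.CX Pool.Agent.W602.GT Pool.Agent.TH710.NU

/-- Let `X` be a projective variety over an algebraically closed field of characteristic zero, given
by nested sums of few high powers of linear forms. Equivalent are: `X` is algebraically hyperbolic;
the degrees of the morphisms from each smooth projective curve to `X` are bounded; there are no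
nonconstant morphisms from the multiplicative group to `X`; `X` contains no line. If the exponents
are large, it is also equivalent that all closed subvarieties of `X` of positive dimension are of
general type. -/
theorem result {k : Type} [Field k] [IsAlgClosed k] [CharZero k] {n : ℕ} {ι : Type}
    {F : ι → MvPolynomial (Fin (n + 1)) k} (hF : ∀ i, Tower (F i)) :
    [∃ A : ℕ, AlgHyperbolic A F, BoundedOnCurves F, ∀ P, ¬ GmCurve F P,
      ¬ ContainsLine F].TFAE ∧
    ∀ s N h : ℕ, (∀ i, Pool.Agent.TH710.ND.IsNested s N h (F i)) →
      (n + 1) * ((h + 1) * (2 * s + 1) ^ 5) ≤ N →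
      [∃ A : ℕ, AlgHyperbolic A F, BoundedOnCurves F, ∀ P, ¬ GmCurve F P, ¬ ContainsLine F,
        AllGeneralType F].TFAE := by
  have h1 := four_towers hF
  refine ⟨h1, fun s N h hF' hN => ?_⟩
  obtain ⟨hNb, hN2, hN1⟩ := Pool.Agent.TH710.ND.bnd_le hN
  tfae_have 1 ↔ 2 := h1.out 0 1
  tfae_have 1 ↔ 3 := h1.out 0 2
  tfae_have 1 ↔ 4 := h1.out 0 3
  tfae_have 3 ↔ 5 := (Pool.Agent.TH710.ND.all_iff (Or.inl hF') hNb).symm
  tfae_finish

end Pool.Agent.Results.MP_6f117a_ag.NestedFour
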